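import Mathlib
import Pool.Agent.W606.SN.Stm

/-!
Project SN, part GROW: linear growth of the trees.
-/

set_option autoImplicit false

namespace Pool.Agent.W696.SN

open Pool.Agent.W606.SN

theorem finTV (m : ℕ) : Finite (TV m) := Finite.of_fintype (TV m)

theorem cardTV (m : ℕ) : Nat.card (TV m) = N m := by
  induction m with
  | zero =>
    show Nat.card Bool = 2
    simp
  | succ m ih =>
    have := finTV m
    show Nat.card (Option (Fin 3 × (Fin (N m) ⊕ TV m))) = 1 + 6 * N m
    rw [Finite.card_option, Nat.card_prod, Nat.card_sum, ih]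
    simp
    ring

/-! ### balls -/

theorem ball_lip {V : Type} (G : SimpleGraph V) (f : V → ℤ)
    (hf : ∀ a b, G.Adj a b → |f a - f b| ≤ 1) (v : V) (r : ℕ) :
    ∀ w ∈ ball G v r, |f v - f w| ≤ r := by
  induction r with
  | zero =>
    intro w hw
    have : w = v := hw
    rw [this]; simp
  | succ r ih =>
    rintro w ⟨w', hw', h⟩
    have h1 := ih w' hw'
    have h2 : |f w' - f w| ≤ 1 := by
      rcases h with rfl | h
      · simp
      · exact hf _ _ h
    push_cast
    rw [abs_le] at h1 h2 ⊢
    constructor <;> linarith [h1.1, h1.2, h2.1, h2.2]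

theorem ball_map {V V' : Type} (G : SimpleGraph V) (G' : SimpleGraph V') (R : V → V')
    (hR : ∀ a b, G.Adj a b → RA G' (R a) (R b)) (v : V) (r : ℕ) :
    ∀ w ∈ ball G v r, R w ∈ ball G' (R v) r := by
  induction r with
  | zero =>
    intro w hw
    have : w = v := hw
    rw [this]
    rfl
  | succ r ih =>
    rintro w ⟨w', hw', h⟩
    refine ⟨R w', ih w' hw', ?_⟩
    rcases h with rfl | h
    · exact RA.refl _ _
    · exact hR _ _ h

/-! ### Lipschitz functions on the trees -/

theorem tree_lip (h : S_DEP) (m : ℕ) (f : TV m → ℤ)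
    (hf : ∀ v, v ≠ rt m → |f v - f (par m v)| ≤ 1) : ∀ a b, (TG m).Adj a b → |f a - f b| ≤ 1 := by
  rintro a b ⟨hne, hab | hab⟩
  · have ha : a ≠ rt m := by
      rintro rfl
      exact hne (by rw [← hab, h.1])
    rw [← hab]; exact hf a ha
  · have hb : b ≠ rt m := by
      rintro rfl
      exact hne (by rw [← hab, h.1])
    rw [← hab, abs_sub_comm]; exact hf b hb

theorem tree_map (h : S_DEP) (m : ℕ) {V' : Type} (G' : SimpleGraph V') (R : TV m → V')
    (hR : ∀ v, v ≠ rt m → RA G' (R v) (R (par m v))) :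
    ∀ a b, (TG m).Adj a b → RA G' (R a) (R b) := by
  rintro a b ⟨hne, hab | hab⟩
  · have ha : a ≠ rt m := by
      rintro rfl
      exact hne (by rw [← hab, h.1])
    rw [← hab]; exact hR a ha
  · have hb : b ≠ rt m := by
      rintro rfl
      exact hne (by rw [← hab, h.1])
    rw [← hab]; exact (hR b hb).symm

theorem dep_lip (h : S_DEP) (m : ℕ) (v : TV m) (r : ℕ) :
    ∀ w ∈ ball (TG m) v r, |(dep m v : ℤ) - dep m w| ≤ r := by
  refine ball_lip (TG m) (fun v => (dep m v : ℤ)) (tree_lip h m _ ?_) v r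
  intro v hv
  have := h.2.2 m v hv
  show |(dep m v : ℤ) - dep m (par m v)| ≤ 1
  rw [← this]
  push_cast
  rw [abs_le]; constructor <;> linarith

/-- the position function relative to the arm `i` -/
noncomputable def pos (m : ℕ) (i : Fin 3) : Option (Fin 3 × (Fin (N m) ⊕ TV m)) → ℤ
  | none => -1
  | some (j, Sum.inl t) => if j = i then (t : ℤ) else -1 - ((t : ℤ) + 1)
  | some (j, Sum.inr w) => if j = i then (N m : ℤ) + dep m w else -1 - ((N m : ℤ) + 1 + dep m w)

/-- the retraction on the copy in the arm `i` -/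
noncomputable def ret (m : ℕ) (i : Fin 3) : Option (Fin 3 × (Fin (N m) ⊕ TV m)) → TV m
  | none => rt m
  | some (_, Sum.inl _) => rt m
  | some (j, Sum.inr w) => if j = i then w else rt m

theorem par_inl_zero (m : ℕ) (j : Fin 3) (t : Fin (N m)) (ht : (t : ℕ) = 0) :
    par (m + 1) (some (j, Sum.inl t)) = none := by
  show (if h : (t : ℕ) = 0 then none else
    some (j, Sum.inl ⟨(t : ℕ) - 1, by omega⟩) : Option (Fin 3 × (Fin (N m) ⊕ TV m))) = none
  rw [dif_pos ht]

theorem par_inl_pos (m : ℕ) (j : Fin 3) (t : Fin (N m)) (ht : (t : ℕ) ≠ 0) :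
    par (m + 1) (some (j, Sum.inl t)) =
      (some (j, Sum.inl ⟨(t : ℕ) - 1, by omega⟩) : Option (Fin 3 × (Fin (N m) ⊕ TV m))) := by
  show (if h : (t : ℕ) = 0 then none else
    some (j, Sum.inl ⟨(t : ℕ) - 1, by omega⟩) : Option (Fin 3 × (Fin (N m) ⊕ TV m))) = _
  rw [dif_neg ht]

theorem par_inr_rt (m : ℕ) (j : Fin 3) :
    par (m + 1) (some (j, Sum.inr (rt m))) =
      (some (j, Sum.inl ⟨N m - 1, Nat.sub_lt (N_pos m) Nat.one_pos⟩) :
        Option (Fin 3 × (Fin (N m) ⊕ TV m))) := by
  exact if_pos rfl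

theorem par_inr (m : ℕ) (j : Fin 3) (w : TV m) (hw : w ≠ rt m) :
    par (m + 1) (some (j, Sum.inr w)) =
      (some (j, Sum.inr (par m w)) : Option (Fin 3 × (Fin (N m) ⊕ TV m))) := by
  exact if_neg hw

theorem pos_lip (h : S_DEP) (m : ℕ) (i : Fin 3) (v : TV (m + 1)) (r : ℕ) :
    ∀ w ∈ ball (TG (m + 1)) v r, |pos m i v - pos m i w| ≤ r := by
  refine ball_lip (TG (m + 1)) (pos m i) (tree_lip h (m + 1) _ ?_) v r
  intro v hv
  rcases v with _ | ⟨j, t | w⟩
  · exact absurd rfl hv
  · by_cases ht : (t : ℕ) = 0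
    · rw [par_inl_zero m j t ht]
      simp only [pos]
      have : ((t : ℕ) : ℤ) = 0 := by rw [ht]; rfl
      rw [this]
      split_ifs <;> simp
    · rw [par_inl_pos m j t ht]
      simp only [pos]
      have : (((t : ℕ) - 1 : ℕ) : ℤ) = (t : ℤ) - 1 := by omega
      rw [this]
      split_ifs <;> (rw [abs_le]; constructor <;> linarith)
  · by_cases hw : w = rt m
    · subst hw
      rw [par_inr_rt]
      simp only [pos]
      have h0 : dep m (rt m) = 0 := h.2.1 m
      have h1 : ((N m - 1 : ℕ) : ℤ) = (N m : ℤ) - 1 := by have := N_pos m; omega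
      rw [h0, h1]
      split_ifs <;> (rw [abs_le]; constructor <;> push_cast <;> linarith)
    · rw [par_inr m j w hw]
      simp only [pos]
      have h1 := h.2.2 m w hw
      have h2 : (dep m w : ℤ) = dep m (par m w) + 1 := by rw [← h1]; push_cast; ring
      rw [h2]
      split_ifs <;> (rw [abs_le]; constructor <;> linarith)

theorem ret_map (h : S_DEP) (m : ℕ) (i : Fin 3) (v : TV (m + 1)) (r : ℕ) :
    ∀ w ∈ ball (TG (m + 1)) v r, ret m i w ∈ ball (TG m) (ret m i v) r := by
  refine ball_map (TG (m + 1)) (TG m) (ret m i) (tree_map h (m + 1) (TG m) _ ?_) v r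
  intro v hv
  rcases v with _ | ⟨j, t | w⟩
  · exact absurd rfl hv
  · by_cases ht : (t : ℕ) = 0
    · rw [par_inl_zero m j t ht]
      exact RA.refl _ _
    · rw [par_inl_pos m j t ht]
      exact RA.refl _ _
  · by_cases hw : w = rt m
    · subst hw
      rw [par_inr_rt]
      simp only [ret]
      split_ifs <;> exact RA.refl _ _
    · rw [par_inr m j w hw]
      simp only [ret]
      split_ifs
      · right
        have h1 := h.2.2 m w hw
        refine ⟨?_, Or.inl rfl⟩
        intro heq
        rw [← heq] at h1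
        omega
      · exact RA.refl _ _

/-! ### counting -/

/-- the vertices of the path in the arm `i` -/
noncomputable def pv (m : ℕ) (i : Fin 3) (t : ℕ) : TV (m + 1) :=
  (if h : t < N m then some (i, Sum.inl ⟨t, h⟩) else none :
    Option (Fin 3 × (Fin (N m) ⊕ TV m)))

theorem pv_eq (m : ℕ) (i : Fin 3) (t : Fin (N m)) :
    pv m i t = (some (i, Sum.inl t) : Option (Fin 3 × (Fin (N m) ⊕ TV m))) := by
  show (if h : (t : ℕ) < N m then some (i, Sum.inl ⟨t, h⟩) else none :
    Option (Fin 3 × (Fin (N m) ⊕ TV m))) = _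
  rw [dif_pos t.2]

theorem card_pv (m : ℕ) (i : Fin 3) (a b : ℕ) : (pv m i '' Set.Ico a b).ncard ≤ b - a := by
  refine (Set.ncard_image_le (Set.finite_Ico a b)).trans ?_
  rw [← Finset.coe_Ico, Set.ncard_coe_finset, Nat.card_Ico]

/-- the vertices of the copy in the arm `i` -/
def cv (m : ℕ) (i : Fin 3) (w : TV m) : TV (m + 1) :=
  (some (i, Sum.inr w) : Option (Fin 3 × (Fin (N m) ⊕ TV m)))

theorem card_cv (m : ℕ) (i : Fin 3) (S : Set (TV m)) : (cv m i '' S).ncard ≤ S.ncard := by
  have := finTV m
  exact Set.ncard_image_le (Set.toFinite S)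

/-- Lemma A -/
theorem card_dep (m : ℕ) (r : ℕ) : {w : TV m | dep m w ≤ r}.ncard ≤ 6 * r + 1 := by
  cases m with
  | zero =>
    rcases Nat.eq_zero_or_pos r with rfl | hr
    · have : {w : TV 0 | dep 0 w ≤ 0} ⊆ {(false : Bool)} := by
        intro w hw
        have hw' : Bool.toNat w ≤ 0 := hw
        cases w
        · rfl
        · simp at hw'
      have := finTV 0
      refine (Set.ncard_le_ncard ‹_› (Set.toFinite _)).trans ?_
      exact (Set.ncard_singleton (false : Bool)).le
    · have := finTV 0
      have h1 := Set.ncard_le_card {w : TV 0 | dep 0 w ≤ r}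
      rw [cardTV] at h1
      have h2 : N 0 = 2 := rfl
      omega
  | succ m =>
    have := finTV (m + 1)
    by_cases hr : N m ≤ r
    · have h1 := Set.ncard_le_card {w : TV (m + 1) | dep (m + 1) w ≤ r}
      rw [cardTV] at h1
      have h2 : N (m + 1) = 1 + 6 * N m := rfl
      omega
    · have hsub : {w : TV (m + 1) | dep (m + 1) w ≤ r} ⊆
          (((({(none : Option (Fin 3 × (Fin (N m) ⊕ TV m)))} : Set (TV (m + 1))) ∪
            pv m 0 '' Set.Ico 0 r) ∪ pv m 1 '' Set.Ico 0 r) ∪ pv m 2 '' Set.Ico 0 r) := by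
        intro w hw
        rcases w with _ | ⟨j, t | w'⟩
        · exact Or.inl (Or.inl (Or.inl rfl))
        · have h1 : (t : ℕ) + 1 ≤ r := hw
          have h2 : ∀ j : Fin 3, (some (j, Sum.inl t) : Option (Fin 3 × (Fin (N m) ⊕ TV m))) ∈
              pv m j '' Set.Ico 0 r := fun j => ⟨t, ⟨Nat.zero_le _, by omega⟩, pv_eq m j t⟩
          fin_cases j
          · exact Or.inl (Or.inl (Or.inr (h2 0)))
          · exact Or.inl (Or.inr (h2 1))
          · exact Or.inr (h2 2)
        · have h1 : N m + 1 + dep m w' ≤ r := hw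
          omega
      have h3 := Set.ncard_le_ncard hsub (Set.toFinite _)
      have h4 := card_pv m 0 0 r
      have h5 := card_pv m 1 0 r
      have h6 := card_pv m 2 0 r
      have h7 := Set.ncard_union_le (((({(none : Option (Fin 3 × (Fin (N m) ⊕ TV m)))} :
        Set (TV (m + 1))) ∪ pv m 0 '' Set.Ico 0 r) ∪ pv m 1 '' Set.Ico 0 r))
        (pv m 2 '' Set.Ico 0 r)
      have h8 := Set.ncard_union_le ((({(none : Option (Fin 3 × (Fin (N m) ⊕ TV m)))} :
        Set (TV (m + 1))) ∪ pv m 0 '' Set.Ico 0 r)) (pv m 1 '' Set.Ico 0 r)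
      have h9 := Set.ncard_union_le (({(none : Option (Fin 3 × (Fin (N m) ⊕ TV m)))} :
        Set (TV (m + 1)))) (pv m 0 '' Set.Ico 0 r)
      have h10 : (({(none : Option (Fin 3 × (Fin (N m) ⊕ TV m)))} :
        Set (TV (m + 1)))).ncard = 1 := Set.ncard_singleton _
      omega

theorem main (h : S_DEP) : S_GROW := by
  intro m
  induction m with
  | zero =>
    intro v r
    rcases Nat.eq_zero_or_pos r with rfl | hr
    · show ({v} : Set (TV 0)).ncard ≤ _
      rw [Set.ncard_singleton]
    · have := finTV 0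
      have h1 := Set.ncard_le_card (ball (TG 0) v r)
      rw [cardTV] at h1
      have h2 : N 0 = 2 := rfl
      omega
  | succ m ih =>
    intro v r
    have := finTV (m + 1)
    have := finTV m
    rcases Nat.eq_zero_or_pos r with rfl | hr
    · show ({v} : Set (TV (m + 1))).ncard ≤ _
      rw [Set.ncard_singleton]
    by_cases hN : N m ≤ r
    · have h1 := Set.ncard_le_card (ball (TG (m + 1)) v r)
      rw [cardTV] at h1
      have h2 : N (m + 1) = 1 + 6 * N m := rfl
      omega
    rcases v with _ | ⟨i, t | w0⟩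
    · -- the centre
      have hsub : ball (TG (m + 1)) (none : Option (Fin 3 × (Fin (N m) ⊕ TV m))) r ⊆
          {w : TV (m + 1) | dep (m + 1) w ≤ r} := by
        intro w hw
        have h1 := dep_lip h (m + 1) _ r w hw
        have h2 : dep (m + 1) (none : Option (Fin 3 × (Fin (N m) ⊕ TV m))) = 0 := rfl
        rw [h2, abs_le] at h1
        show dep (m + 1) w ≤ r
        have := h1.1
        push_cast at this
        omega
      have h3 := Set.ncard_le_ncard hsub (Set.toFinite _)
      have h4 := card_dep (m + 1) r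
      omega
    · -- a vertex of the path in the arm `i`
      have hsub : ball (TG (m + 1)) (some (i, Sum.inl t) : Option (Fin 3 × (Fin (N m) ⊕ TV m))) r ⊆
          (((((({(none : Option (Fin 3 × (Fin (N m) ⊕ TV m)))} : Set (TV (m + 1))) ∪
            pv m 0 '' Set.Ico 0 r) ∪ pv m 1 '' Set.Ico 0 r) ∪ pv m 2 '' Set.Ico 0 r) ∪
            pv m i '' Set.Ico (t - r) (t + r + 1)) ∪ cv m i '' {w : TV m | dep m w ≤ r}) := by
        intro w hw
        have h1 := pos_lip h m i _ r w hw
        have h2 : pos m i (some (i, Sum.inl t)) = (t : ℤ) := by simp [pos]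
        rw [h2, abs_le] at h1
        obtain ⟨h1a, h1b⟩ := h1
        rcases w with _ | ⟨j, t' | w'⟩
        · exact Or.inl (Or.inl (Or.inl (Or.inl (Or.inl rfl))))
        · by_cases hj : j = i
          · subst hj
            have h3 : pos m j (some (j, Sum.inl t')) = (t' : ℤ) := by simp [pos]
            rw [h3] at h1a h1b
            exact Or.inl (Or.inr ⟨t', ⟨by omega, by omega⟩, pv_eq m j t'⟩)
          · have h3 : pos m i (some (j, Sum.inl t')) = -1 - ((t' : ℤ) + 1) := by simp [pos, hj]
            rw [h3] at h1a h1b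
            have h4 : ∀ j : Fin 3, (some (j, Sum.inl t') : Option (Fin 3 × (Fin (N m) ⊕ TV m))) ∈
                pv m j '' Set.Ico 0 r := fun j => ⟨t', ⟨Nat.zero_le _, by omega⟩, pv_eq m j t'⟩
            fin_cases j
            · exact Or.inl (Or.inl (Or.inl (Or.inl (Or.inr (h4 0)))))
            · exact Or.inl (Or.inl (Or.inl (Or.inr (h4 1))))
            · exact Or.inl (Or.inl (Or.inr (h4 2)))
        · have ht := t.2
          by_cases hj : j = i
          · subst hj
            have h3 : pos m j (some (j, Sum.inr w')) = (N m : ℤ) + dep m w' := by simp [pos]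
            rw [h3] at h1a h1b
            refine Or.inr ⟨w', ?_, rfl⟩
            show dep m w' ≤ r
            omega
          · have h3 : pos m i (some (j, Sum.inr w')) = -1 - ((N m : ℤ) + 1 + dep m w') := by
              simp [pos, hj]
            rw [h3] at h1a h1b
            exfalso
            omega
      have h3 := Set.ncard_le_ncard hsub (Set.toFinite _)
      have h4 := card_pv m 0 0 r
      have h5 := card_pv m 1 0 r
      have h6 := card_pv m 2 0 r
      have h6' := card_pv m i (t - r) (t + r + 1)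
      have h6'' := (card_cv m i {w : TV m | dep m w ≤ r}).trans (card_dep m r)
      have u1 := Set.ncard_union_le (((((({(none : Option (Fin 3 × (Fin (N m) ⊕ TV m)))} :
        Set (TV (m + 1))) ∪ pv m 0 '' Set.Ico 0 r) ∪ pv m 1 '' Set.Ico 0 r) ∪
        pv m 2 '' Set.Ico 0 r) ∪ pv m i '' Set.Ico (t - r) (t + r + 1)))
        (cv m i '' {w : TV m | dep m w ≤ r})
      have u2 := Set.ncard_union_le ((((({(none : Option (Fin 3 × (Fin (N m) ⊕ TV m)))} :
        Set (TV (m + 1))) ∪ pv m 0 '' Set.Ico 0 r) ∪ pv m 1 '' Set.Ico 0 r) ∪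
        pv m 2 '' Set.Ico 0 r)) (pv m i '' Set.Ico (t - r) (t + r + 1))
      have h7 := Set.ncard_union_le (((({(none : Option (Fin 3 × (Fin (N m) ⊕ TV m)))} :
        Set (TV (m + 1))) ∪ pv m 0 '' Set.Ico 0 r) ∪ pv m 1 '' Set.Ico 0 r))
        (pv m 2 '' Set.Ico 0 r)
      have h8 := Set.ncard_union_le ((({(none : Option (Fin 3 × (Fin (N m) ⊕ TV m)))} :
        Set (TV (m + 1))) ∪ pv m 0 '' Set.Ico 0 r)) (pv m 1 '' Set.Ico 0 r)
      have h9 := Set.ncard_union_le (({(none : Option (Fin 3 × (Fin (N m) ⊕ TV m)))} :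
        Set (TV (m + 1)))) (pv m 0 '' Set.Ico 0 r)
      have h10 : (({(none : Option (Fin 3 × (Fin (N m) ⊕ TV m)))} :
        Set (TV (m + 1)))).ncard = 1 := Set.ncard_singleton _
      omega
    · -- a vertex of the copy in the arm `i`
      have hsub : ball (TG (m + 1)) (some (i, Sum.inr w0) : Option (Fin 3 × (Fin (N m) ⊕ TV m))) r ⊆
          pv m i '' Set.Ico (N m + dep m w0 - r) (N m) ∪
            cv m i '' {w : TV m | w ∈ ball (TG m) w0 r ∧ dep m w ≤ dep m w0 + r} := by
        intro w hw
        have h1 := pos_lip h m i _ r w hw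
        have hret := ret_map h m i _ r w hw
        have h2 : pos m i (some (i, Sum.inr w0)) = (N m : ℤ) + dep m w0 := by simp [pos]
        have h2' : ret m i (some (i, Sum.inr w0)) = w0 := by simp [ret]
        rw [h2'] at hret
        rw [h2, abs_le] at h1
        obtain ⟨h1a, h1b⟩ := h1
        rcases w with _ | ⟨j, t' | w'⟩
        · have h3 : pos m i none = -1 := rfl
          rw [h3] at h1a h1b
          exfalso
          omega
        · by_cases hj : j = i
          · subst hj
            have h3 : pos m j (some (j, Sum.inl t')) = (t' : ℤ) := by simp [pos]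
            rw [h3] at h1a h1b
            exact Or.inl ⟨t', ⟨by omega, t'.2⟩, pv_eq m j t'⟩
          · have h3 : pos m i (some (j, Sum.inl t')) = -1 - ((t' : ℤ) + 1) := by simp [pos, hj]
            rw [h3] at h1a h1b
            exfalso
            omega
        · by_cases hj : j = i
          · subst hj
            have h3 : ret m j (some (j, Sum.inr w')) = w' := by simp [ret]
            rw [h3] at hret
            refine Or.inr ⟨w', ⟨hret, ?_⟩, rfl⟩
            have h4 := dep_lip h m w0 r w' hret
            rw [abs_le] at h4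
            have := h4.1
            omega
          · have h3 : pos m i (some (j, Sum.inr w')) = -1 - ((N m : ℤ) + 1 + dep m w') := by
              simp [pos, hj]
            rw [h3] at h1a h1b
            exfalso
            omega
      have h3 := Set.ncard_le_ncard hsub (Set.toFinite _)
      have h4 := card_pv m i (N m + dep m w0 - r) (N m)
      have h5 := card_cv m i {w : TV m | w ∈ ball (TG m) w0 r ∧ dep m w ≤ dep m w0 + r}
      have u1 := Set.ncard_union_le (pv m i '' Set.Ico (N m + dep m w0 - r) (N m))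
        (cv m i '' {w : TV m | w ∈ ball (TG m) w0 r ∧ dep m w ≤ dep m w0 + r})
      by_cases hd : r ≤ dep m w0
      · have h6 : {w : TV m | w ∈ ball (TG m) w0 r ∧ dep m w ≤ dep m w0 + r}.ncard ≤
            (ball (TG m) w0 r).ncard :=
          Set.ncard_le_ncard (fun w hw => hw.1) (Set.toFinite _)
        have h7 := ih w0 r
        omega
      · have h6 : {w : TV m | w ∈ ball (TG m) w0 r ∧ dep m w ≤ dep m w0 + r}.ncard ≤
            {w : TV m | dep m w ≤ dep m w0 + r}.ncard :=
          Set.ncard_le_ncard (fun w hw => hw.2) (Set.toFinite _)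
        have h7 := card_dep m (dep m w0 + r)
        omega

end Pool.Agent.W696.SN
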